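import Mathlib
import Pool.Agent.H15.HX.Defs
import Pool.Agent.H54.K4

/-!
Row HW3 of the board hxb (MP_c00ca1_co): the six points of the rank-3 whirl.
-/

set_option autoImplicit false

namespace Pool.Agent.H15.HX

open Finset Pool.Agent.H9.Bry

theorem w3_triples (B : Finset (Fin 6)) (h3 : B.card = 3) (h1 : B ≠ {0, 1, 3})
    (h2 : B ≠ {0, 2, 4}) (h4 : B ≠ {1, 2, 5}) :
    B ∈ ([{0,1,2}, {0,1,4}, {0,1,5}, {0,2,3}, {0,2,5}, {0,3,4}, {0,3,5}, {0,4,5},
      {1,2,3}, {1,2,4}, {1,3,4}, {1,3,5}, {1,4,5}, {2,3,4}, {2,3,5}, {2,4,5}, {3,4,5}] :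
      List (Finset (Fin 6))) := by
  revert B
  decide

theorem w3_scale {F : Type*} [Field F] (l : Fin 6 → F) (P : Fin 6 → (Fin 3 → F))
    (i1 i2 i3 : Fin 6) :
    Matrix.det (Matrix.of ![l i1 • P i1, l i2 • P i2, l i3 • P i3]) =
      l i1 * l i2 * l i3 * Matrix.det (Matrix.of ![P i1, P i2, P i3]) := by
  simp only [Matrix.det_fin_three, Matrix.of_apply, Matrix.cons_val, Pi.smul_apply, smul_eq_mul]
  ring

theorem w3_key {F : Type*} [Field F] {l : Fin 6 → F} (hl : ∀ k, l k ≠ 0)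
    (P : Fin 6 → (Fin 3 → F)) (i1 i2 i3 : Fin 6) (h12 : i1 ≠ i2) (h13 : i1 ≠ i3)
    (h23 : i2 ≠ i3) (d : F) (hd : d ≠ 0)
    (hdet : Matrix.det (Matrix.of ![P i1, P i2, P i3]) = d) :
    LinearIndepOn F (fun k => l k • P k) (({i1, i2, i3} : Finset (Fin 6)) : Set (Fin 6)) := by
  have h0 : (({i1, i2, i3} : Finset (Fin 6)) : Set (Fin 6)) = {i1, i2, i3} := by simp
  rw [h0, Pool.Agent.H54.Bry.li3_iff _ _ _ _ h12 h13 h23, w3_scale, hdet]
  exact mul_ne_zero (mul_ne_zero (mul_ne_zero (hl _) (hl _)) (hl _)) hd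

theorem w3_good {F : Type*} [Field F] {γ : F} (h0 : γ ≠ 0) (h1 : γ ≠ -1) {l : Fin 6 → F}
    (hl : ∀ k, l k ≠ 0) (B : Finset (Fin 6)) (hB3 : B.card = 3)
    (hB1 : B ≠ {0, 1, 3}) (hB2 : B ≠ {0, 2, 4}) (hB4 : B ≠ {1, 2, 5}) :
    LinearIndepOn F (fun k => l k • (![![1, 0, 0], ![0, 1, 0], ![0, 0, 1], ![1, 1, 0], ![γ, 0, 1],
      ![0, 1, 1]] : Fin 6 → (Fin 3 → F)) k) (B : Set (Fin 6)) := by
  have h1' : -1 - γ ≠ 0 := by
    intro h
    apply h1
    linear_combination -h
  have e1 : (1 : F) ≠ 0 := one_ne_zero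
  have e2 : (-1 : F) ≠ 0 := neg_ne_zero.2 one_ne_zero
  have e3 : -γ ≠ 0 := neg_ne_zero.2 h0
  have hmem := w3_triples B hB3 hB1 hB2 hB4
  simp only [List.mem_cons, List.not_mem_nil, or_false] at hmem
  rcases hmem with rfl | rfl | rfl | rfl | rfl | rfl | rfl | rfl | rfl | rfl | rfl | rfl | rfl |
    rfl | rfl | rfl | rfl
  · exact w3_key hl _ 0 1 2 (by decide) (by decide) (by decide) 1 e1
      (by simp [Matrix.det_fin_three])
  · exact w3_key hl _ 0 1 4 (by decide) (by decide) (by decide) 1 e1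
      (by simp [Matrix.det_fin_three])
  · exact w3_key hl _ 0 1 5 (by decide) (by decide) (by decide) 1 e1
      (by simp [Matrix.det_fin_three])
  · exact w3_key hl _ 0 2 3 (by decide) (by decide) (by decide) (-1) e2
      (by simp [Matrix.det_fin_three])
  · exact w3_key hl _ 0 2 5 (by decide) (by decide) (by decide) (-1) e2
      (by simp [Matrix.det_fin_three])
  · exact w3_key hl _ 0 3 4 (by decide) (by decide) (by decide) 1 e1
      (by simp [Matrix.det_fin_three])
  · exact w3_key hl _ 0 3 5 (by decide) (by decide) (by decide) 1 e1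
      (by simp [Matrix.det_fin_three])
  · exact w3_key hl _ 0 4 5 (by decide) (by decide) (by decide) (-1) e2
      (by simp [Matrix.det_fin_three])
  · exact w3_key hl _ 1 2 3 (by decide) (by decide) (by decide) 1 e1
      (by simp [Matrix.det_fin_three])
  · exact w3_key hl _ 1 2 4 (by decide) (by decide) (by decide) γ h0
      (by simp [Matrix.det_fin_three])
  · exact w3_key hl _ 1 3 4 (by decide) (by decide) (by decide) (-1) e2
      (by simp [Matrix.det_fin_three])
  · exact w3_key hl _ 1 3 5 (by decide) (by decide) (by decide) (-1) e2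
      (by simp [Matrix.det_fin_three])
  · exact w3_key hl _ 1 4 5 (by decide) (by decide) (by decide) (-γ) e3
      (by simp [Matrix.det_fin_three])
  · exact w3_key hl _ 2 3 4 (by decide) (by decide) (by decide) (-γ) e3
      (by simp [Matrix.det_fin_three])
  · exact w3_key hl _ 2 3 5 (by decide) (by decide) (by decide) 1 e1
      (by simp [Matrix.det_fin_three])
  · exact w3_key hl _ 2 4 5 (by decide) (by decide) (by decide) γ h0
      (by simp [Matrix.det_fin_three])
  · exact w3_key hl _ 3 4 5 (by decide) (by decide) (by decide) (-1 - γ) h1'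
      (by simp [Matrix.det_fin_three])

theorem w3_bad {F : Type*} [Field F] (γ : F) (l : Fin 6 → F) (P : Fin 6 → (Fin 3 → F))
    (hP : P = ![![1, 0, 0], ![0, 1, 0], ![0, 0, 1], ![1, 1, 0], ![γ, 0, 1], ![0, 1, 1]]) :
    ¬ LinearIndepOn F (fun k => l k • P k) ({0, 1, 3} : Set (Fin 6)) ∧
    ¬ LinearIndepOn F (fun k => l k • P k) ({0, 2, 4} : Set (Fin 6)) ∧
    ¬ LinearIndepOn F (fun k => l k • P k) ({1, 2, 5} : Set (Fin 6)) := by
  refine ⟨?_, ?_, ?_⟩
  · rw [Pool.Agent.H54.Bry.li3_iff _ _ _ _ (by decide) (by decide) (by decide), not_not, w3_scale,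
      hP]
    simp [Matrix.det_fin_three]
  · rw [Pool.Agent.H54.Bry.li3_iff _ _ _ _ (by decide) (by decide) (by decide), not_not, w3_scale,
      hP]
    simp [Matrix.det_fin_three]
  · rw [Pool.Agent.H54.Bry.li3_iff _ _ _ _ (by decide) (by decide) (by decide), not_not, w3_scale,
      hP]
    simp [Matrix.det_fin_three]

theorem isW3_of {α F : Type*} [Field F] {N : Matroid α} {x : Fin 6 → α}
    (hx : Function.Injective x) (hE : N.E = Set.range x) {γ : F} (h0 : γ ≠ 0) (h1 : γ ≠ -1)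
    {l : Fin 6 → F} (hl : ∀ k, l k ≠ 0)
    (hind : ∀ B : Finset (Fin 6), N.Indep (x '' (B : Set (Fin 6))) ↔
      LinearIndepOn F (fun k => l k • (![![1, 0, 0], ![0, 1, 0], ![0, 0, 1], ![1, 1, 0],
        ![γ, 0, 1], ![0, 1, 1]] : Fin 6 → (Fin 3 → F)) k) (B : Set (Fin 6))) : IsW3 N := by
  classical
  have hcard : ∀ B : Finset (Fin 6), N.Indep (x '' (B : Set (Fin 6))) → B.card ≤ 3 := by
    intro B hB
    have hli : LinearIndependent F
      (fun k : (B : Set (Fin 6)) => l k • (![![1, 0, 0], ![0, 1, 0], ![0, 0, 1], ![1, 1, 0],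
        ![γ, 0, 1], ![0, 1, 1]] : Fin 6 → (Fin 3 → F)) k) := (hind B).1 hB
    have := hli.fintype_card_le_finrank
    simpa using this
  have hpre : ∀ S : Set α, S ⊆ N.E → ∃ B : Finset (Fin 6), S = x '' (B : Set (Fin 6)) := by
    intro S hS
    refine ⟨Finset.univ.filter (fun k => x k ∈ S), ?_⟩
    ext y
    constructor
    · intro hy
      obtain ⟨k, rfl⟩ := (hE ▸ hS) hy
      exact ⟨k, by simpa using hy, rfl⟩
    · rintro ⟨k, hk, rfl⟩
      simpa using hk
  have hbase : ∀ B : Finset (Fin 6), N.Indep (x '' (B : Set (Fin 6))) → B.card = 3 →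
      N.IsBase (x '' (B : Set (Fin 6))) := by
    intro B hB hB3
    obtain ⟨B', hB', hsub⟩ := hB.exists_isBase_superset
    obtain ⟨C, rfl⟩ := hpre B' hB'.subset_ground
    have hBC : B ⊆ C := by
      intro k hk
      have : x k ∈ x '' (C : Set (Fin 6)) := hsub ⟨k, hk, rfl⟩
      obtain ⟨k', hk', he⟩ := this
      rw [← hx he]
      exact hk'
    have hC := hcard C hB'.indep
    have : B = C := Finset.eq_of_subset_of_card_le hBC (by omega)
    rw [this]
    exact hB'
  have hgood := fun B => w3_good (F := F) h0 h1 hl B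
  refine ⟨x, hx, hE, fun B => ⟨fun hB => ?_, ?_⟩⟩
  · have hB0 : N.IsBase (x '' (({0, 1, 5} : Finset (Fin 6)) : Set (Fin 6))) := by
      apply hbase _ _ (by decide)
      rw [hind]
      exact hgood _ (by decide) (by decide) (by decide) (by decide)
    have hcB : B.card = 3 := by
      have h := hB.ncard_eq_ncard_of_isBase hB0
      rw [Set.ncard_image_of_injective _ hx, Set.ncard_image_of_injective _ hx,
        Set.ncard_coe_finset, Set.ncard_coe_finset] at h
      rw [h]
      decide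
    have hli := (hind B).1 hB.indep
    obtain ⟨q1, q2, q3⟩ := w3_bad γ l _ rfl
    refine ⟨hcB, ?_, ?_, ?_⟩
    · rintro rfl
      apply q1
      simpa using hli
    · rintro rfl
      apply q2
      simpa using hli
    · rintro rfl
      apply q3
      simpa using hli
  · rintro ⟨g0, g1, g2, g3⟩
    exact hbase B ((hind B).2 (hgood B g0 g1 g2 g3)) g0

end Pool.Agent.H15.HX
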